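import Pool.Agent.Helper89.Lang.RothA
import Pool.Agent.Helper92.Ru.AsmC
import Pool.Agent.Helper54.Ru.M1int

/-!
# P1: Roth's theorem (MP_c307ca_nt)
-/

set_option autoImplicit false

namespace Helper89Roth

/-- **P1 (ROTH)** -/
theorem roth : Pool.Agent.Helper98.Lang.GRoth :=
  roth_of (Pool.Agent.Helper92.Ru.sstX' Pool.Agent.Helper54.Ru.m1int Pool.Agent.Helper92.Ru.vanish')

end Helper89Roth
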