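import Pool.Agent.Helper98.Lang.Defs
import Pool.Agent.Helper92.Ru.GoalsS

/-!
# P1: Roth's theorem from the subspace theorem (MP_c307ca_nt)
-/

set_option autoImplicit false

open NumberField Finset

namespace Helper89Roth

open Pool.Agent.Helper98.Lang Pool.Agent.Helper92.Ru

/-- a number field containing a conjugate of `ξ` at every infinite place -/
theorem exists_field (ξ : ℝ) (hξ : IsAlgebraic ℚ ξ) :
    ∃ (k : Type) (_ : Field k) (_ : NumberField k) (r : InfinitePlace k → k),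
      ∀ v : InfinitePlace k, v.embedding (r v) = (ξ : ℂ) := by
  let f : Polynomial ℚ := minpoly ℚ ξ
  have hint : IsIntegral ℚ ξ := hξ.isIntegral
  have hf0 : f ≠ 0 := minpoly.ne_zero hint
  let _ : CharZero f.SplittingField := charZero_of_injective_algebraMap
    (algebraMap ℚ f.SplittingField).injective
  let _ : NumberField f.SplittingField := { }
  have key : ∀ v : InfinitePlace f.SplittingField, ∃ r : f.SplittingField,
      v.embedding r = (ξ : ℂ) := by
    intro v
    have hs : (f.map (algebraMap ℚ f.SplittingField)).Splits := Polynomial.SplittingField.splits f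
    have h1 := Polynomial.Splits.roots_map hs v.embedding
    have h2 : (ξ : ℂ) ∈ ((f.map (algebraMap ℚ f.SplittingField)).map v.embedding).roots := by
      rw [Polynomial.map_map, Polynomial.mem_roots (Polynomial.map_ne_zero hf0),
        Polynomial.IsRoot.def, Polynomial.eval_map]
      have h3 : v.embedding.comp (algebraMap ℚ f.SplittingField) =
          (Complex.ofRealHom : ℝ →+* ℂ).comp (algebraMap ℚ ℝ) := Subsingleton.elim _ _
      rw [h3]
      have h4 : (ξ : ℂ) = Complex.ofRealHom ξ := rfl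
      have h5 : f.eval₂ (algebraMap ℚ ℝ) ξ = 0 := minpoly.aeval ℚ ξ
      rw [h4, ← Polynomial.hom_eval₂, h5, map_zero]
    rw [h1, Multiset.mem_map] at h2
    obtain ⟨r, _, hr⟩ := h2
    exact ⟨r, hr⟩
  choose r hr using key
  exact ⟨f.SplittingField, inferInstance, inferInstance, r, hr⟩

/-- a proper subspace containing two vectors -/
theorem det_of_mem {k : Type} [Field k] {W : Submodule k (Fin 2 → k)} (hW : W ≠ ⊤)
    {x y : Fin 2 → k} (hx : x ∈ W) (hy : y ∈ W) : x 0 * y 1 = x 1 * y 0 := by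
  by_contra hne
  apply hW
  rw [eq_top_iff]
  intro z _
  have hd : x 0 * y 1 - x 1 * y 0 ≠ 0 := sub_ne_zero.2 hne
  have h1 : z = ((z 0 * y 1 - z 1 * y 0) / (x 0 * y 1 - x 1 * y 0)) • x +
      ((x 0 * z 1 - x 1 * z 0) / (x 0 * y 1 - x 1 * y 0)) • y := by
    funext i
    fin_cases i
    · simp only [Pi.add_apply, Pi.smul_apply, smul_eq_mul, Fin.zero_eta]
      rw [div_mul_eq_mul_div, div_mul_eq_mul_div, ← add_div, eq_div_iff hd]
      ring
    · simp only [Pi.add_apply, Pi.smul_apply, smul_eq_mul, Fin.mk_one]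
      rw [div_mul_eq_mul_div, div_mul_eq_mul_div, ← add_div, eq_div_iff hd]
      ring
  rw [h1]
  exact W.add_mem (W.smul_mem _ hx) (W.smul_mem _ hy)

theorem int_le_one {k : Type} [Field k] [NumberField k] (w : FinitePlace k) (a : ℤ) :
    w ((a : ℤ) : k) ≤ 1 := by
  have h1 := SInt.of_int (T := (∅ : Finset (FinitePlace k))) ((a : ℤ) : 𝓞 k) w (by simp)
  have h2 : (((a : ℤ) : 𝓞 k) : k) = ((a : ℤ) : k) := by simp
  rwa [h2] at h1

/-- the good approximations lie in finitely many subspaces -/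
theorem bad_mem (h : SSTX) {ξ : ℝ} {k : Type} [Field k] [NumberField k] (r : InfinitePlace k → k)
    (hr : ∀ v : InfinitePlace k, v.embedding (r v) = (ξ : ℂ)) {δ : ℝ} (hδ : 0 < δ) :
    ∃ (N0 : ℝ) (F : Finset (Submodule k (Fin 2 → k))), (∀ W ∈ F, W ≠ ⊤) ∧
      ∀ n : ℕ, 1 ≤ n → N0 ≤ n → nd (n * ξ) ≤ (n : ℝ) ^ (-(1 + δ)) →
        ∃ W ∈ F, ![((n : ℤ) : k), ((round ((n : ℝ) * ξ) : ℤ) : k)] ∈ W := by
  classical
  let T : Finset (FinitePlace k) := ∅
  let rr : SP k T → k := Sum.elim r (fun _ => 0)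
  let m : SP k T → ℕ := Sum.elim (fun v => v.mult) (fun _ => 1)
  let D : ℕ := ∑ v, m v
  have hm : ∀ v, 1 ≤ m v := by
    rintro (v | v)
    · exact v.mult_pos
    · exact le_refl 1
  have hD : 1 ≤ D := by
    obtain ⟨v⟩ : Nonempty (InfinitePlace k) := inferInstance
    calc 1 ≤ m (Sum.inl v) := hm _
      _ ≤ D := Finset.single_le_sum (f := m) (fun _ _ => Nat.zero_le _) (Finset.mem_univ _)
  have hD0 : (D : ℝ) ≠ 0 := by positivity
  let A : SP k T → Matrix (Fin 2) (Fin 2) k := fun v => !![rr v, -1; 1, 0]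
  have hA : ∀ v, (A v).det ≠ 0 := by
    intro v
    simp [A, Matrix.det_fin_two]
  let c : SP k T → Fin 2 → ℝ := fun v i => if i = 0 then (2 + δ) * m v / D else 0
  have hc : ((2 : ℕ) : ℝ) < ∑ v, ∑ i, c v i := by
    have h1 : ∑ v, ∑ i, c v i = 2 + δ := by
      have h2 : ∀ v, ∑ i, c v i = (2 + δ) / D * m v := by
        intro v
        rw [Fin.sum_univ_two]
        simp only [c]
        simp
        ring
      rw [Finset.sum_congr rfl (fun v _ => h2 v), ← Finset.mul_sum, ← Nat.cast_sum]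
      change (2 + δ) / D * (D : ℝ) = 2 + δ
      field_simp
    rw [h1]
    push_cast
    linarith
  obtain ⟨H0, F, hF, hS⟩ := h k T 2 (by norm_num) A hA c hc 1 one_pos
  refine ⟨H0, F, hF, fun n hn hnN hnd => ?_⟩
  have hn1 : (1 : ℝ) ≤ n := by exact_mod_cast hn
  have hn0 : (0 : ℝ) < n := by linarith
  refine hS ![((n : ℤ) : k), ((round ((n : ℝ) * ξ) : ℤ) : k)] (fun v => (n : ℝ) ^ m v)
    (fun _ => 0) ((n : ℝ) ^ D) (fun v => by positivity) (by simp) (fun _ _ => rfl) ?_ ?_ ?_ ?_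
  · intro w _ i
    rw [zpow_zero]
    fin_cases i
    · exact int_le_one w _
    · exact int_le_one w _
  · simp only [zpow_zero, finprod_one, mul_one]
    rw [Finset.prod_pow_eq_pow_sum]
  · calc H0 ≤ n := hnN
      _ = (n : ℝ) ^ 1 := (pow_one _).symm
      _ ≤ (n : ℝ) ^ D := pow_le_pow_right₀ hn1 hD
  · rintro (v | v) i
    · have hmv : m (Sum.inl v) = v.mult := rfl
      have habs : ∀ x : k, v x = ‖v.embedding x‖ := fun x =>
        (InfinitePlace.norm_embedding_eq v x).symm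
      fin_cases i
      · have h1 : (A (Sum.inl v)).mulVec ![((n : ℤ) : k), ((round ((n : ℝ) * ξ) : ℤ) : k)] 0 =
            r v * ((n : ℤ) : k) - ((round ((n : ℝ) * ξ) : ℤ) : k) := by
          simp [A, Matrix.mulVec, dotProduct, Fin.sum_univ_two, rr]
          ring
        have h2 : v (r v * ((n : ℤ) : k) - ((round ((n : ℝ) * ξ) : ℤ) : k)) = nd (n * ξ) := by
          rw [habs, map_sub, map_mul, hr, map_intCast, map_intCast, nd]
          have : (ξ : ℂ) * ((n : ℤ) : ℂ) - ((round ((n : ℝ) * ξ) : ℤ) : ℂ) =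
              (((n : ℝ) * ξ - (round ((n : ℝ) * ξ) : ℤ) : ℝ) : ℂ) := by
            push_cast; ring
          rw [this, Complex.norm_real, Real.norm_eq_abs]
        change nS (Sum.inl v) ((A (Sum.inl v)).mulVec _ 0) ≤ _
        rw [h1, nS_inl, h2, hmv]
        have h3 : c (Sum.inl v) ((fun i => i) (⟨0, by omega⟩ : Fin 2)) = (2 + δ) * v.mult / D := by
          simp [c, hmv]
        simp only [h3]
        have h4 : ((n : ℝ) ^ D) ^ (-((2 + δ) * v.mult / D)) = (n : ℝ) ^ (-((2 + δ) * v.mult)) := by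
          rw [← Real.rpow_natCast, ← Real.rpow_mul hn0.le]
          congr 1
          field_simp
        rw [h4, one_mul, ← Real.rpow_natCast (n : ℝ) v.mult, ← Real.rpow_add hn0]
        calc nd (n * ξ) ^ v.mult ≤ ((n : ℝ) ^ (-(1 + δ))) ^ v.mult :=
              pow_le_pow_left₀ (abs_nonneg _) hnd _
          _ = (n : ℝ) ^ ((v.mult : ℝ) + -((2 + δ) * v.mult)) := by
              rw [← Real.rpow_natCast, ← Real.rpow_mul hn0.le]
              congr 1
              ring
      · have h1 : (A (Sum.inl v)).mulVec ![((n : ℤ) : k), ((round ((n : ℝ) * ξ) : ℤ) : k)] 1 =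
            ((n : ℤ) : k) := by
          simp [A, Matrix.mulVec, dotProduct, Fin.sum_univ_two]
        have h2 : v ((n : ℤ) : k) = n := by
          rw [habs, map_intCast]
          simp
        change nS (Sum.inl v) ((A (Sum.inl v)).mulVec _ 1) ≤ _
        rw [h1, nS_inl, h2, hmv]
        have h3 : c (Sum.inl v) ((fun i => i) (⟨1, by omega⟩ : Fin 2)) = 0 := by
          simp [c]
        simp only [h3]
        simp
    · exact (Finset.notMem_empty _ v.2).elim

theorem nd_nonneg (x : ℝ) : 0 ≤ nd x := abs_nonneg _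

theorem nd_pos {ξ : ℝ} (hξ : Irrational ξ) {n : ℕ} (hn : 1 ≤ n) : 0 < nd (n * ξ) := by
  rw [nd, abs_pos]
  intro h0
  have h1 : Irrational ((n : ℝ) * ξ) := hξ.natCast_mul (by omega)
  apply h1
  exact ⟨(round ((n : ℝ) * ξ) : ℤ), by push_cast; linarith⟩

/-- **P1**: Roth's theorem from the subspace theorem -/
theorem roth_of (h : SSTX) : GRoth := by
  intro ξ hξ hirr δ hδ
  classical
  obtain ⟨k, _, _, r, hr⟩ := exists_field ξ hξ
  obtain ⟨N0, F, hF, hN⟩ := bad_mem h r hr hδ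
  let S : Set ℕ := {n | 1 ≤ n ∧ nd (n * ξ) ≤ (n : ℝ) ^ (-(1 + δ))}
  have hfin : S.Finite := by
    have hsub : S ⊆ {n : ℕ | (n : ℝ) < N0} ∪ ⋃ W ∈ F, {n : ℕ | n ∈ S ∧
        ![((n : ℤ) : k), ((round ((n : ℝ) * ξ) : ℤ) : k)] ∈ W} := by
      intro n hn
      by_cases hlt : (n : ℝ) < N0
      · exact Or.inl hlt
      · right
        obtain ⟨W, hW, hmem⟩ := hN n hn.1 (not_lt.1 hlt) hn.2
        exact Set.mem_biUnion hW ⟨hn, hmem⟩
    refine Set.Finite.subset (Set.Finite.union ?_ ?_) hsub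
    · refine (Set.finite_Iic ⌈N0⌉₊).subset fun n hn => ?_
      have h1 : (n : ℝ) < N0 := hn
      have h2 : (n : ℝ) ≤ ⌈N0⌉₊ := h1.le.trans (Nat.le_ceil _)
      exact_mod_cast h2
    · refine Set.Finite.biUnion F.finite_toSet fun W hW => ?_
      rcases Set.eq_empty_or_nonempty {n : ℕ | n ∈ S ∧
        ![((n : ℤ) : k), ((round ((n : ℝ) * ξ) : ℤ) : k)] ∈ W} with he | ⟨n1, hn1, hm1⟩
      · rw [he]; exact Set.finite_empty
      · have hn1' : (1 : ℝ) ≤ n1 := by exact_mod_cast hn1.1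
        have hn10 : (n1 : ℝ) ≠ 0 := by positivity
        set κ : ℝ := |ξ - (round ((n1 : ℝ) * ξ) : ℤ) / n1| with hκ
        have hκ0 : 0 < κ := by
          rw [hκ, abs_pos]
          intro h0
          apply hirr
          refine ⟨((round ((n1 : ℝ) * ξ) : ℤ) : ℚ) / (n1 : ℚ), ?_⟩
          rw [Rat.cast_div, Rat.cast_intCast, Rat.cast_natCast]
          exact (sub_eq_zero.1 h0).symm
        refine (Set.finite_Iic ⌈1 / κ⌉₊).subset fun n hn => ?_
        obtain ⟨hnS, hm⟩ := hn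
        have hn1'' : (1 : ℝ) ≤ n := by exact_mod_cast hnS.1
        have hn0 : (n : ℝ) ≠ 0 := by positivity
        have h1 := det_of_mem (hF W hW) hm hm1
        simp only [Matrix.cons_val_zero, Matrix.cons_val_one] at h1
        have h2 : (n : ℤ) * round ((n1 : ℝ) * ξ) = round ((n : ℝ) * ξ) * (n1 : ℤ) := by
          exact_mod_cast h1
        have h3 : (n : ℝ) * (round ((n1 : ℝ) * ξ) : ℤ) = (round ((n : ℝ) * ξ) : ℤ) * (n1 : ℝ) := by
          exact_mod_cast h2
        have h4 : nd (n * ξ) = n * κ := by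
          rw [nd, hκ]
          have h5 : (n : ℝ) * ξ - (round ((n : ℝ) * ξ) : ℤ) =
              n * (ξ - (round ((n1 : ℝ) * ξ) : ℤ) / n1) := by
            rw [mul_sub, ← mul_div_assoc, h3, mul_div_assoc, div_self hn10, mul_one]
          rw [h5, abs_mul, abs_of_pos (by positivity : (0 : ℝ) < n)]
        have h5 : (n : ℝ) * κ ≤ 1 := by
          rw [← h4]
          refine hnS.2.trans ?_
          exact Real.rpow_le_one_of_one_le_of_nonpos hn1'' (by linarith)
        have h6 : (n : ℝ) ≤ 1 / κ := by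
          rw [le_div_iff₀ hκ0]; exact h5
        have h7 : (n : ℝ) ≤ ⌈1 / κ⌉₊ := h6.trans (Nat.le_ceil _)
        exact_mod_cast h7
  have hex : ∃ c : ℝ, 0 < c ∧ c ≤ 1 ∧ ∀ n ∈ S, c ≤ nd (n * ξ) := by
    have key : ∀ s : Finset ℕ, (∀ n ∈ s, 1 ≤ n) →
        ∃ c : ℝ, 0 < c ∧ c ≤ 1 ∧ ∀ n ∈ s, c ≤ nd (n * ξ) := by
      intro s
      induction s using Finset.induction_on with
      | empty => intro _; exact ⟨1, one_pos, le_refl _, by simp⟩
      | insert a s ha ih =>
        intro hs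
        obtain ⟨c, hc, hc1, hcs⟩ := ih (fun n hn => hs n (Finset.mem_insert_of_mem hn))
        have ha1 := nd_pos hirr (hs a (Finset.mem_insert_self _ _))
        refine ⟨min c (nd (a * ξ)), lt_min hc ha1, (min_le_left _ _).trans hc1, ?_⟩
        intro n hn
        rcases Finset.mem_insert.1 hn with rfl | hn
        · exact min_le_right _ _
        · exact (min_le_left _ _).trans (hcs n hn)
    obtain ⟨c, hc, hc1, hcs⟩ := key hfin.toFinset (fun n hn => ((hfin.mem_toFinset).1 hn).1)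
    exact ⟨c, hc, hc1, fun n hn => hcs n ((hfin.mem_toFinset).2 hn)⟩
  obtain ⟨c, hc, hc1, hcs⟩ := hex
  refine ⟨c, hc, fun n hn => ?_⟩
  have hn1 : (1 : ℝ) ≤ n := by exact_mod_cast hn
  have hle : (n : ℝ) ^ (-(1 + δ)) ≤ 1 :=
    Real.rpow_le_one_of_one_le_of_nonpos hn1 (by linarith)
  have hpos : 0 < (n : ℝ) ^ (-(1 + δ)) := Real.rpow_pos_of_pos (by linarith) _
  by_cases hS : nd (n * ξ) ≤ (n : ℝ) ^ (-(1 + δ))
  · calc c * (n : ℝ) ^ (-(1 + δ)) ≤ c * 1 := mul_le_mul_of_nonneg_left hle hc.le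
      _ = c := mul_one _
      _ ≤ _ := hcs n ⟨hn, hS⟩
  · calc c * (n : ℝ) ^ (-(1 + δ)) ≤ 1 * (n : ℝ) ^ (-(1 + δ)) :=
        mul_le_mul_of_nonneg_right hc1 hpos.le
      _ ≤ _ := by rw [one_mul]; exact (not_le.1 hS).le

end Helper89Roth
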