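import Pool.Agent.Helper48.Lang.Goals

/-!
# Packet LG-TAY: Taylor expansion up to order two along a line
-/

set_option autoImplicit false

namespace Pool.Agent.Helper89.Lang.TAY

open MvPolynomial Pool.Agent.Helper48.Lang

variable {N : ℕ}

lemma pd_mul (P : MvPolynomial (Fin N) ℝ) (j p : Fin N) :
    pderiv p (P * X j) = pderiv p P * X j + P * C (if p = j then (1 : ℝ) else 0) := by
  rw [pderiv_mul]
  congr 2
  rw [pderiv_X]
  by_cases h : p = j
  · subst h
    simp
  · rw [if_neg h, Pi.single_eq_of_ne (Ne.symm h)]
    simp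

lemma D1_mul (P : MvPolynomial (Fin N) ℝ) (j : Fin N) (x v : Fin N → ℝ) :
    D1 (P * X j) x v = D1 P x v * x j + eval x P * v j := by
  unfold D1
  have h : ∀ p : Fin N, eval x (pderiv p (P * X j)) * v p =
      eval x (pderiv p P) * v p * x j + (if p = j then eval x P * v p else 0) := by
    intro p
    rw [pd_mul]
    simp only [map_add, map_mul, eval_X, eval_C]
    split_ifs <;> ring
  simp only [h]
  rw [Finset.sum_add_distrib, Finset.sum_mul, Finset.sum_ite_eq' Finset.univ j]
  simp

lemma D2_mul (P : MvPolynomial (Fin N) ℝ) (j : Fin N) (x v : Fin N → ℝ) :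
    D2 (P * X j) x v = D2 P x v * x j + 2 * D1 P x v * v j := by
  unfold D2 D1
  have h : ∀ p q : Fin N, eval x (pderiv p (pderiv q (P * X j))) * (v p * v q) =
      eval x (pderiv p (pderiv q P)) * (v p * v q) * x j +
        (if p = j then eval x (pderiv q P) * v q * v p else 0) +
        (if q = j then eval x (pderiv p P) * v p * v q else 0) := by
    intro p q
    rw [pd_mul, map_add, pd_mul, pderiv_mul, pderiv_C]
    simp only [map_add, map_mul, eval_X, eval_C, mul_zero, add_zero]
    split_ifs <;> ring
  simp only [h, Finset.sum_add_distrib]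
  have h1 : ∑ p : Fin N, ∑ q : Fin N,
      (if p = j then eval x (pderiv q P) * v q * v p else 0) =
        (∑ q, eval x (pderiv q P) * v q) * v j := by
    rw [Finset.sum_comm, Finset.sum_mul]
    refine Finset.sum_congr rfl fun q _ => ?_
    rw [Finset.sum_ite_eq' Finset.univ j]
    simp
  have h2 : ∑ p : Fin N, ∑ q : Fin N,
      (if q = j then eval x (pderiv p P) * v p * v q else 0) =
        (∑ q, eval x (pderiv q P) * v q) * v j := by
    rw [Finset.sum_mul]
    refine Finset.sum_congr rfl fun q _ => ?_
    rw [Finset.sum_ite_eq' Finset.univ j]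
    simp
  rw [h1, h2]
  simp only [Finset.sum_mul]
  have h3 : ∀ a b c : ℝ, a + b + b = a + 2 * b := fun a b _ => by ring
  simp only [← Finset.sum_mul]
  ring

theorem c_tay : S_TAY := by
  intro N P x v
  induction P using MvPolynomial.induction_on with
  | C a =>
    refine ⟨0, fun e => ?_⟩
    simp [D1, D2]
  | add p q hp hq =>
    obtain ⟨r1, h1⟩ := hp
    obtain ⟨r2, h2⟩ := hq
    refine ⟨r1 + r2, fun e => ?_⟩
    have e1 : D1 (p + q) x v = D1 p x v + D1 q x v := by
      unfold D1
      rw [← Finset.sum_add_distrib]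
      refine Finset.sum_congr rfl fun a _ => ?_
      rw [map_add, map_add]
      ring
    have e2 : D2 (p + q) x v = D2 p x v + D2 q x v := by
      unfold D2
      rw [← Finset.sum_add_distrib]
      refine Finset.sum_congr rfl fun a _ => ?_
      rw [← Finset.sum_add_distrib]
      refine Finset.sum_congr rfl fun b _ => ?_
      rw [map_add, map_add, map_add]
      ring
    rw [map_add, h1 e, h2 e, e1, e2, map_add, Polynomial.eval_add]
    ring
  | mul_X p j hp =>
    obtain ⟨r, h⟩ := hp
    refine ⟨r * (Polynomial.C (x j) + Polynomial.X * Polynomial.C (v j)) +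
      Polynomial.C (D2 p x v / 2 * v j), fun e => ?_⟩
    rw [map_mul, eval_X, h e, D1_mul, D2_mul, map_mul, eval_X]
    simp only [Polynomial.eval_add, Polynomial.eval_mul, Polynomial.eval_C, Polynomial.eval_X]
    ring

end Pool.Agent.Helper89.Lang.TAY
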